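import Pool.Agent.W209.KT.Stm

/-! Project KT (owner helper209): covering. -/

set_option autoImplicit false

namespace Pool.Agent.W797.KT

open Pool.Agent.W209.KT

theorem lev_bd (k : ℕ) : (256 : ℝ) ^ lev k ≤ k + 1 ∧ (k : ℝ) + 1 < 256 ^ (lev k + 1) := by
  have h1 : 256 ^ lev k ≤ k + 1 := Nat.pow_log_le_self 256 (Nat.succ_ne_zero k)
  have h2 : k + 1 < 256 ^ (lev k + 1) := Nat.lt_pow_succ_log_self (by norm_num) (k + 1)
  constructor
  · exact_mod_cast h1
  · exact_mod_cast h2

theorem cov : S_cov := by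
  refine ⟨lev_bd, ?_, ?_⟩
  · intro k
    obtain ⟨h1, h2⟩ := lev_bd k
    have hpos : (0 : ℝ) < 256 ^ lev k := by positivity
    rw [pow_succ] at h2
    unfold u
    constructor
    · have h3 : 0 ≤ ((k + 1 : ℝ) - 256 ^ lev k) / (255 * 256 ^ lev k) :=
        div_nonneg (by linarith) (by positivity)
      linarith
    · have h3 : ((k + 1 : ℝ) - 256 ^ lev k) / (255 * 256 ^ lev k) ≤ 1 := by
        rw [div_le_one (by positivity)]
        linarith
      linarith
  · intro t ht1 ht2 N
    obtain ⟨M, hM⟩ : ∃ M : ℕ, M = 256 ^ N := ⟨_, rfl⟩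
    have hM1 : 1 ≤ M := by rw [hM]; exact Nat.one_le_pow _ _ (by norm_num)
    have hMN : N < M := by rw [hM]; exact Nat.lt_pow_self (by norm_num)
    have hMR : (1 : ℝ) ≤ (M : ℝ) := by exact_mod_cast hM1
    obtain ⟨x, hx⟩ : ∃ x : ℝ, x = (t - 1) * (255 * M) := ⟨_, rfl⟩
    have hx0 : 0 ≤ x := by rw [hx]; exact mul_nonneg (by linarith) (by linarith)
    have hx1 : x ≤ 255 * M := by
      rw [hx]
      nlinarith
    obtain ⟨n, hn1, hn2⟩ : ∃ n : ℕ, n + 1 ≤ 255 * M ∧ |x - n| ≤ 1 := by
      by_cases hlt : x < 255 * M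
      · refine ⟨⌊x⌋₊, ?_, ?_⟩
        · have h3 : ⌊x⌋₊ < 255 * M := by
            rw [Nat.floor_lt hx0]
            push_cast
            exact hlt
          omega
        · have h4 := Nat.floor_le hx0
          have h5 := Nat.lt_floor_add_one x
          rw [abs_le]
          constructor <;> linarith
      · have hxe : x = 255 * M := le_antisymm hx1 (not_lt.1 hlt)
        refine ⟨255 * M - 1, by omega, ?_⟩
        have h3 : ((255 * M - 1 : ℕ) : ℝ) = 255 * M - 1 := by
          rw [Nat.cast_sub (by omega)]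
          push_cast
          ring
        rw [h3, hxe]
        norm_num
    refine ⟨M + n - 1, by omega, ?_⟩
    have hk : M + n - 1 + 1 = M + n := by omega
    have hlev : lev (M + n - 1) = N := by
      unfold lev
      rw [hk]
      rw [Nat.log_eq_iff (Or.inr ⟨by norm_num, by omega⟩)]
      constructor
      · rw [← hM]; omega
      · rw [pow_succ, ← hM]; omega
    have hu : u (M + n - 1) = 1 + n / (255 * M) := by
      unfold u
      rw [hlev]
      have h3 : ((M + n - 1 : ℕ) : ℝ) + 1 = M + n := by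
        have h4 : (((M + n - 1 : ℕ) + 1 : ℕ) : ℝ) = ((M + n : ℕ) : ℝ) := by rw [hk]
        push_cast at h4
        exact h4
      have h5 : (256 : ℝ) ^ N = M := by rw [hM]; push_cast; rfl
      rw [h3, h5]
      congr 2
      ring
    rw [hlev, hu]
    have h6 : t - (1 + n / (255 * (M : ℝ))) = (x - n) / (255 * M) := by
      rw [hx]
      field_simp
      ring
    rw [h6, abs_div, abs_of_pos (by linarith : (0 : ℝ) < 255 * M)]
    have h7 : (1 / 256 : ℝ) ^ N = 1 / M := by
      rw [hM, div_pow, one_pow]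
      push_cast
      rfl
    rw [h7, div_le_div_iff₀ (by linarith) (by linarith)]
    nlinarith [abs_nonneg (x - n)]

end Pool.Agent.W797.KT
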